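import Pool.Agent.Helper95.UrqCount
import Pool.Agent.Helper95.UrqUpper

set_option autoImplicit false

open Finset Filter Topology

namespace Pool.Agent.Results.MP_99441d_lc.OwnStatement

/-- A clause: a finite set of literals; `(x, true)` is the literal `x` and `(x, false)` its
negation. -/
abbrev Clause (X : Type) : Type := Finset (X × Bool)

/-- `C` is a clause of the Tseitin formula `TS(G, l)`: for some vertex `v` and some assignment `α`
violating the parity constraint at `v`, it is the clause on the edges at `v` ruling out `α`. -/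
def IsTseitinClause {V : Type} [Fintype V] [DecidableEq V] (G : SimpleGraph V) [DecidableRel G.Adj]
    (l : V → ZMod 2) (C : Clause (Sym2 V)) : Prop :=
  ∃ (v : V) (α : Sym2 V → Bool),
    (((G.incidenceFinset v).filter fun e => α e = true).card : ZMod 2) ≠ l v ∧
    C = (G.incidenceFinset v).image fun e => (e, !α e)

/-- A Resolution refutation with `n` clauses of the CNF whose clauses are those satisfying `Ax`.
The `i`-th clause is a clause of the CNF if `rule i = none`, and is derived from the clauses number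
`p` and `q` (both before it) by resolving on the variable `x` if `rule i = some (p, q, x)`. The last
clause is the empty clause. -/
structure Refutation {X : Type} [DecidableEq X] (Ax : Clause X → Prop) (n : ℕ) where
  /-- the clauses -/
  clause : Fin n → Clause X
  /-- how each clause is obtained -/
  rule : Fin n → Option (Fin n × Fin n × X)
  ax : ∀ i, rule i = none → Ax (clause i)
  res : ∀ i p q x, rule i = some (p, q, x) → p < i ∧ q < i ∧ (x, true) ∈ clause p ∧
    (x, false) ∈ clause q ∧ clause i = (clause p).erase (x, true) ∪ (clause q).erase (x, false)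
  /-- the number of the last clause -/
  last : Fin n
  isLast : ∀ i, i ≤ last
  empty : clause last = ∅

variable {X : Type} [DecidableEq X] {Ax : Clause X → Prop} {n : ℕ}

/-- The clause number `u` is one of the two clauses from which the clause number `w` is derived. -/
def Refutation.Premise (π : Refutation Ax n) (u w : Fin n) : Prop :=
  ∃ p q x, π.rule w = some (p, q, x) ∧ (u = p ∨ u = q)

/-- A path in the refutation, viewed as a directed acyclic graph, from a clause of the CNF to the
final empty clause. -/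
def Refutation.IsPath (π : Refutation Ax n) (l : List (Fin n)) : Prop :=
  (∃ u ∈ l.head?, π.rule u = none) ∧ l.IsChain π.Premise ∧ π.last ∈ l.getLast?

/-- On every path from a clause of the CNF to the empty clause no variable is resolved on more than
once. -/
def Refutation.Regular (π : Refutation Ax n) : Prop :=
  ∀ l, π.IsPath l → (l.filterMap fun i => (π.rule i).map fun t => t.2.2).Nodup

/-- some derivation path leads to each clause -/
lemma exists_start (π : Refutation Ax n) (j : Fin n) :
    ∃ a, π.rule a = none ∧ Relation.ReflTransGen π.Premise a j := by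
  induction j using WellFoundedLT.induction with
  | ind j ih =>
    rcases h : π.rule j with _ | ⟨p, q, x⟩
    · exact ⟨j, h, Relation.ReflTransGen.refl⟩
    · obtain ⟨a, h1, h2⟩ := ih p (π.res j p q x h).1
      exact ⟨a, h1, h2.tail ⟨p, q, x, h, Or.inl rfl⟩⟩

/-- On a path through `j` and later `i`, the variables resolved on at `j` and `i` differ. -/
lemma var_ne (π : Refutation Ax n) (hπ : π.Regular) {i j p q p' q' : Fin n} {x y : X}
    (hj : π.rule j = some (p, q, x)) (hi : π.rule i = some (p', q', y))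
    (hji : Relation.TransGen π.Premise j i) (hil : Relation.ReflTransGen π.Premise i π.last) :
    x ≠ y := by
  obtain ⟨a, ha, haj⟩ := exists_start π j
  obtain ⟨A, hA, hAne⟩ := List.exists_isChain_cons_of_relationReflTransGen haj
  obtain ⟨c, hjc, hci⟩ := Relation.TransGen.head'_iff.1 hji
  obtain ⟨B, hB, hBne⟩ := List.exists_isChain_cons_of_relationReflTransGen hci
  obtain ⟨D, hD, hDne⟩ := List.exists_isChain_cons_of_relationReflTransGen hil
  -- the path
  have hBD : ((c :: B) ++ D).IsChain π.Premise := by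
    rcases D with _ | ⟨d, D⟩
    · simpa using hB
    · rw [List.isChain_append]
      refine ⟨hB, (List.isChain_cons_cons.1 hD).2, ?_⟩
      intro u hu w hw
      rw [List.getLast?_eq_some_getLast (List.cons_ne_nil _ _), hBne] at hu
      simp only [Option.mem_def, Option.some.injEq, List.head?_cons] at hu hw
      subst hu hw
      exact (List.isChain_cons_cons.1 hD).1
  have hpath : ((a :: A) ++ ((c :: B) ++ D)).IsChain π.Premise := by
    rw [List.isChain_append]
    refine ⟨hA, hBD, ?_⟩
    intro u hu w hw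
    rw [List.getLast?_eq_some_getLast (List.cons_ne_nil _ _), hAne] at hu
    simp only [Option.mem_def, Option.some.injEq, List.cons_append, List.head?_cons] at hu hw
    subst hu hw
    exact hjc
  have hlast : π.last ∈ ((a :: A) ++ ((c :: B) ++ D)).getLast? := by
    rw [List.getLast?_append_of_ne_nil _ (by simp)]
    rcases D with _ | ⟨d, D⟩
    · rw [List.append_nil, List.getLast?_eq_some_getLast (List.cons_ne_nil _ _), hBne]
      simp only [List.getLast_singleton] at hDne
      simp [hDne]
    · rw [List.getLast?_append_of_ne_nil _ (by simp),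
        List.getLast?_eq_some_getLast (List.cons_ne_nil _ _)]
      rw [List.getLast_cons (List.cons_ne_nil _ _)] at hDne
      simp [hDne]
  have hnd := hπ _ ⟨⟨a, by simp, ha⟩, hpath, hlast⟩
  rw [List.filterMap_append, List.filterMap_append, List.nodup_append'] at hnd
  obtain ⟨-, -, hdis⟩ := hnd
  have h1 : x ∈ (a :: A).filterMap fun i => (π.rule i).map fun t => t.2.2 := by
    rw [List.mem_filterMap]
    refine ⟨j, ?_, by rw [hj]; rfl⟩
    rw [← hAne]
    exact List.getLast_mem _
  have h2 : y ∈ (c :: B).filterMap fun i => (π.rule i).map fun t => t.2.2 := by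
    rw [List.mem_filterMap]
    refine ⟨i, ?_, by rw [hi]; rfl⟩
    rw [← hBne]
    exact List.getLast_mem _
  intro hxy
  subst hxy
  exact hdis h1 (List.mem_append_left _ h2)

open Pool.Agent.Helper95.Urq

open scoped Classical in
/-- The used part of a regular refutation. -/
noncomputable def toRef (π : Refutation Ax n) (hπ : π.Regular) (x₀ : X) (A₀ : Clause X) :
    Ref X where
  n := n
  D := fun i => if Relation.ReflTransGen π.Premise i π.last then π.clause i else A₀
  b := fun i => if Relation.ReflTransGen π.Premise i π.last then (π.rule i).isNone else true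
  p := fun i => ((π.rule i).map fun t => t.1).getD i
  q := fun i => ((π.rule i).map fun t => t.2.1).getD i
  y := fun i => ((π.rule i).map fun t => t.2.2).getD x₀
  step := by
    intro i hi
    by_cases hu : Relation.ReflTransGen π.Premise i π.last
    · rw [if_pos hu] at hi
      rcases h : π.rule i with _ | ⟨p, q, x⟩
      · rw [h] at hi
        exact absurd hi (by simp)
      · obtain ⟨h1, h2, h3, h4, h5⟩ := π.res i p q x h
        have hp : Relation.ReflTransGen π.Premise p π.last :=
          Relation.ReflTransGen.head ⟨p, q, x, h, Or.inl rfl⟩ hu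
        have hq : Relation.ReflTransGen π.Premise q π.last :=
          Relation.ReflTransGen.head ⟨p, q, x, h, Or.inr rfl⟩ hu
        simp only [Option.map_some, Option.getD_some, if_pos hp, if_pos hq, if_pos hu]
        exact ⟨h1, h2, h3, h4, h5⟩
    · rw [if_neg hu] at hi
      exact absurd hi (by simp)
  r := π.last
  root := by rw [if_pos Relation.ReflTransGen.refl]; exact π.empty
  reg := by
    intro i j hi hj hji
    have key : ∀ i : Fin n, (if Relation.ReflTransGen π.Premise i π.last then (π.rule i).isNone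
        else true) = false → Relation.ReflTransGen π.Premise i π.last ∧
        ∃ p q x, π.rule i = some (p, q, x) := by
      intro i hi
      by_cases hu : Relation.ReflTransGen π.Premise i π.last
      · rw [if_pos hu] at hi
        rcases h : π.rule i with _ | ⟨p, q, x⟩
        · rw [h] at hi
          exact absurd hi (by simp)
        · exact ⟨hu, p, q, x, rfl⟩
      · rw [if_neg hu] at hi
        exact absurd hi (by simp)
    obtain ⟨hu, p', q', y, hy⟩ := key i hi
    obtain ⟨-, p, q, x, hx⟩ := key j hj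
    have hji' : Relation.TransGen π.Premise j i := by
      refine Relation.TransGen.mono ?_ _ _ hji
      rintro u w ⟨hw, hu⟩
      obtain ⟨-, p, q, x, hx⟩ := key w hw
      rw [hx] at hu
      exact ⟨p, q, x, hx, hu⟩
    simp only [hx, hy, Option.map_some, Option.getD_some]
    exact var_ne π hπ hx hy hji' hu

lemma isTseitinClause_iff {V : Type} [Fintype V] [DecidableEq V] (G : SimpleGraph V)
    [DecidableRel G.Adj] (l : V → ZMod 2) (C : Clause (Sym2 V)) :
    IsTseitinClause G l C ↔ IsAx G l C := by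
  constructor
  · rintro ⟨v, α, h, rfl⟩
    exact isAx_of G l h
  · rintro ⟨v, S, hS, h, rfl⟩
    refine ⟨v, fun e => decide (e ∈ S), ?_, ?_⟩
    · have : (G.incidenceFinset v).filter (fun e => decide (e ∈ S) = true) = S := by
        ext e
        simp only [mem_filter, decide_eq_true_eq]
        exact ⟨fun h => h.2, fun h => ⟨hS h, h⟩⟩
      rw [this]
      exact h
    · ext ⟨e, c⟩
      simp only [Finset.mem_image, Finset.mem_union, Finset.mem_sdiff, Prod.mk.injEq]
      constructor
      · rintro (⟨e', h1, rfl, rfl⟩ | ⟨e', ⟨h1, h2⟩, rfl, rfl⟩)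
        · exact ⟨e', hS h1, rfl, by simp [h1]⟩
        · exact ⟨e', h1, rfl, by simp [h2]⟩
      · rintro ⟨e', h1, rfl, rfl⟩
        by_cases h2 : e' ∈ S
        · left; exact ⟨e', h2, rfl, by simp [h2]⟩
        · right; exact ⟨e', ⟨h1, h2⟩, rfl, by simp [h2]⟩

open scoped Classical in
/-- every regular refutation is long -/
lemma regular_bound {m : ℕ} (hm : 0 < m) {n : ℕ}
    (π : Refutation (IsTseitinClause (Gr m) (lab m)) n) (hπ : π.Regular) :
    2 ^ (3 * m - 1) - 1 ≤ n := by
  obtain ⟨a, ha, -⟩ := exists_start π π.last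
  have hA : IsAx (Gr m) (lab m) (π.clause a) := (isTseitinClause_iff _ _ _).1 (π.ax a ha)
  refine regular_lower (m := m) (R := toRef π hπ (ed 0 0 ⟨0, hm⟩) (π.clause a)) ?_ hm
  intro i hi
  change (if Relation.ReflTransGen π.Premise i π.last then (π.rule i).isNone else true) = true at hi
  change IsAx (Gr m) (lab m) (if Relation.ReflTransGen π.Premise i π.last then π.clause i
    else π.clause a)
  by_cases hu : Relation.ReflTransGen π.Premise i π.last
  · rw [if_pos hu] at hi ⊢
    exact (isTseitinClause_iff _ _ _).1 (π.ax i (by simpa using hi))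
  · rw [if_neg hu]
    exact hA

/-- some refutation is short -/
lemma exists_short {m : ℕ} (hm : 0 < m) :
    ∃ (n : ℕ) (_ : Refutation (IsTseitinClause (Gr m) (lab m)) n),
      n ≤ cw m + (cn m + (cn m + (cn m + (2 ^ m - 1)))) := by
  classical
  obtain ⟨L, hL, hlen, hnil⟩ := refutation (m := m) hm
  obtain ⟨C, hC, hC2⟩ := hL.toSeq
  obtain ⟨i₀, hi₀⟩ := hC2 ∅ hnil
  have hle : (i₀ : ℕ) + 1 ≤ L.length := i₀.2
  have hch : ∀ i : Fin L.length, ∃ t : Option (Fin L.length × Fin L.length × Sym2 (Vx m)),
      (t = none → IsAx (Gr m) (lab m) (C i)) ∧ ∀ p q x, t = some (p, q, x) →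
        p < i ∧ q < i ∧ (x, true) ∈ C p ∧ (x, false) ∈ C q ∧
        C i = (C p).erase (x, true) ∪ (C q).erase (x, false) := by
    intro i
    rcases hC i with h | ⟨p, q, e, h⟩
    · exact ⟨none, fun _ => h, fun _ _ _ h2 => absurd h2 (by simp)⟩
    · refine ⟨some (p, q, e), fun h2 => absurd h2 (by simp), ?_⟩
      rintro p' q' x h2
      simp only [Option.some.injEq, Prod.mk.injEq] at h2
      obtain ⟨rfl, rfl, rfl⟩ := h2
      exact h
  choose t ht1 ht2 using hch
  -- the clauses up to the empty one
  let em : Fin ((i₀ : ℕ) + 1) → Fin L.length := Fin.castLE hle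
  let bk : Fin ((i₀ : ℕ) + 1) → Fin L.length → Fin ((i₀ : ℕ) + 1) := fun i p =>
    if h : (p : ℕ) < (i₀ : ℕ) + 1 then ⟨p, h⟩ else i
  have hbk : ∀ (i : Fin ((i₀ : ℕ) + 1)) (p : Fin L.length), p < em i →
      bk i p < i ∧ em (bk i p) = p := by
    intro i p hp
    have h1 : (p : ℕ) < i := hp
    have h2 : (p : ℕ) < (i₀ : ℕ) + 1 := h1.trans i.2
    have h3 : bk i p = ⟨p, h2⟩ := dif_pos h2
    rw [h3]
    exact ⟨h1, rfl⟩
  refine ⟨(i₀ : ℕ) + 1, ⟨fun i => C (em i), fun i => (t (em i)).map fun s =>
    (bk i s.1, bk i s.2.1, s.2.2), ?_, ?_, Fin.last _, Fin.le_last, hi₀⟩, hle.trans hlen⟩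
  · intro i hi
    exact (isTseitinClause_iff _ _ _).2 (ht1 _ (by simpa using hi))
  · intro i p q x h
    rcases h1 : t (em i) with _ | ⟨p', q', x'⟩
    · rw [h1] at h
      exact absurd h (by simp)
    · rw [h1] at h
      simp only [Option.map_some, Option.some.injEq, Prod.mk.injEq] at h
      obtain ⟨rfl, rfl, rfl⟩ := h
      obtain ⟨h2, h3, h4, h5, h6⟩ := ht2 _ _ _ _ h1
      obtain ⟨h7, h8⟩ := hbk i p' h2
      obtain ⟨h9, h10⟩ := hbk i q' h3
      refine ⟨h7, h9, ?_, ?_, ?_⟩
      · rw [h8]; exact h4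
      · rw [h10]; exact h5
      · rw [h8, h10]; exact h6

/-- the numbers -/
lemma numbers (c : ℝ) (hc : c < 2) : ∃ m : ℕ, 0 < m ∧
    c * ((cw m + (cn m + (cn m + (cn m + (2 ^ m - 1)))) : ℕ) : ℝ) <
      ((2 ^ (3 * m - 1) - 1 : ℕ) : ℝ) := by
  have h1 : Tendsto (fun n : ℕ => 24 * ((n : ℝ) ^ 1 / (2 : ℝ) ^ n) + 51 * ((n : ℝ) ^ 0 / (2 : ℝ) ^ n))
      atTop (𝓝 (24 * 0 + 51 * 0)) :=
    ((tendsto_pow_const_div_const_pow_of_one_lt 1 one_lt_two).const_mul 24).add
      ((tendsto_pow_const_div_const_pow_of_one_lt 0 one_lt_two).const_mul 51)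
  have h2 : (24 * 0 + 51 * 0 : ℝ) < 4 - 2 * c := by linarith
  obtain ⟨k, hk⟩ := (h1.eventually (gt_mem_nhds h2)).exists
  refine ⟨k + 1, Nat.succ_pos k, ?_⟩
  have hN0 : (0 : ℝ) < (2 : ℝ) ^ k := by positivity
  have hN1 : (1 : ℝ) ≤ (2 : ℝ) ^ k := one_le_pow₀ (by norm_num)
  have hk' : 24 * (k : ℝ) + 51 < (4 - 2 * c) * (2 : ℝ) ^ k := by
    have h3 : 24 * ((k : ℝ) ^ 1 / (2 : ℝ) ^ k) + 51 * ((k : ℝ) ^ 0 / (2 : ℝ) ^ k) =
        (24 * (k : ℝ) + 51) / (2 : ℝ) ^ k := by
      field_simp
    rw [h3, div_lt_iff₀ hN0] at hk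
    exact hk
  have e1 : ((2 ^ (k + 1) - 1 : ℕ) : ℝ) = 2 * (2 : ℝ) ^ k - 1 := by
    rw [Nat.cast_sub Nat.one_le_two_pow]
    push_cast
    ring
  have e2 : ((2 ^ (3 * (k + 1) - 1) - 1 : ℕ) : ℝ) = 4 * ((2 : ℝ) ^ k) ^ 3 - 1 := by
    rw [Nat.cast_sub Nat.one_le_two_pow]
    push_cast
    rw [show 3 * (k + 1) - 1 = k * 3 + 2 by omega, pow_add, pow_mul]
    ring
  have e3 : k + 1 - 1 = k := rfl
  rw [e2]
  unfold cw cn
  rw [e3]
  push_cast [e1]
  set N : ℝ := (2 : ℝ) ^ k with hN
  have hkk : (0 : ℝ) ≤ (k : ℝ) := Nat.cast_nonneg k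
  have hU : ∀ U : ℝ, U ≤ 2 * N ^ 3 + N ^ 2 * (12 * ((k : ℝ) + 1) + 13) → 0 ≤ U →
      c * U < 4 * N ^ 3 - 1 := by
    intro U hU hU0
    rcases le_or_gt c 0 with h0 | h0
    · have : c * U ≤ 0 := mul_nonpos_of_nonpos_of_nonneg h0 hU0
      nlinarith [pow_pos hN0 3, one_le_pow₀ hN1 (n := 3)]
    · have h4 : c * U ≤ c * (2 * N ^ 3 + N ^ 2 * (12 * ((k : ℝ) + 1) + 13)) :=
        mul_le_mul_of_nonneg_left hU h0.le
      have h5 : c * (12 * ((k : ℝ) + 1) + 13) ≤ 2 * (12 * ((k : ℝ) + 1) + 13) :=
        mul_le_mul_of_nonneg_right hc.le (by positivity)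
      have h6 : c * (12 * ((k : ℝ) + 1) + 13) + 1 < (4 - 2 * c) * N := by linarith
      have h7 : N ^ 2 * (c * (12 * ((k : ℝ) + 1) + 13) + 1) < N ^ 2 * ((4 - 2 * c) * N) :=
        mul_lt_mul_of_pos_left h6 (by positivity)
      have h8 : 1 ≤ N ^ 2 := one_le_pow₀ hN1
      nlinarith
  apply hU
  · nlinarith [mul_nonneg hkk hN0.le, mul_nonneg (mul_nonneg hkk hN0.le) (sub_nonneg.2 hN1),
      mul_nonneg hN0.le (sub_nonneg.2 hN1)]
  · have h9 : 0 ≤ 2 * N - 1 := by linarith
    positivity

/-- For every `c < 2` there are a finite graph `G` and an odd labelling `l` such that every regular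
Resolution refutation of `TS(G, l)` has more than `c` times as many clauses as some Resolution
refutation of `TS(G, l)`. For `c = 1` this is the negated form of Q1. -/
theorem result (c : ℝ) (hc : c < 2) :
    ∃ (V : Type) (_ : Fintype V) (_ : DecidableEq V) (G : SimpleGraph V) (_ : DecidableRel G.Adj)
      (l : V → ZMod 2), ∑ v, l v = 1 ∧
      ∃ (n : ℕ) (_ : Refutation (IsTseitinClause G l) n),
        ∀ (n' : ℕ) (π : Refutation (IsTseitinClause G l) n'), π.Regular → c * n < n' := by
  obtain ⟨m, hm, hlt⟩ := numbers c hc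
  obtain ⟨n, π, hn⟩ := exists_short hm
  refine ⟨Vx m, inferInstance, inferInstance, Gr m, inferInstance, lab m, lab_odd m, n, π, ?_⟩
  intro n' π' hπ'
  have h1 : (2 ^ (3 * m - 1) - 1 : ℕ) ≤ n' := regular_bound hm π' hπ'
  have h2 : ((2 ^ (3 * m - 1) - 1 : ℕ) : ℝ) ≤ n' := by exact_mod_cast h1
  have h3 : (n : ℝ) ≤ ((cw m + (cn m + (cn m + (cn m + (2 ^ m - 1)))) : ℕ) : ℝ) := by
    exact_mod_cast hn
  rcases le_or_gt 0 c with h0 | h0
  · calc c * n ≤ _ := mul_le_mul_of_nonneg_left h3 h0
      _ < _ := hlt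
      _ ≤ _ := h2
  · have h4 : (0 : ℝ) < n := by
      have : 0 < n := lt_of_le_of_lt (Nat.zero_le _) π.last.2
      exact_mod_cast this
    have h5 : (0 : ℝ) ≤ n' := Nat.cast_nonneg _
    nlinarith [mul_pos_of_neg_of_neg h0 (neg_neg_of_pos h4)]

end Pool.Agent.Results.MP_99441d_lc.OwnStatement
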